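import Mathlib
import Pool.Agent.H68R2.BP.Props2
import Pool.Agent.H759R2.Kad.Props6
import Pool.Agent.H196R2.Kad5.C1
import Pool.Agent.H228R2.Kad5.Sep
import Pool.Agent.H819R2.Kad5.C3
import Pool.Agent.H818R2.Kad5.Cen
import Pool.Agent.H130R2.Kad5.C5
import Pool.Agent.H201R2.Kad5.C6
import Pool.Agent.H896R2.Kad5.W10
import Pool.Agent.H445R2.Kad4.Range

open scoped ComplexOrder InnerProductSpace ComplexConjugate Topology
open Finset Filter

noncomputable section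

namespace H68R2.BP

open H759R2.Kad H744R2.KZ

namespace ROneAux

theorem wst (H : Type) [NormedAddCommGroup H] [InnerProductSpace ℂ H] [CompleteSpace H]
    (M : VonNeumannAlgebra H) : Wst M.toStarSubalgebra :=
  prove6_wst prove6_chain_all (prove6_sep prove6_chain_all) prove6_polar prove6_cen
    (prove6_spec prove5_range) H M

section

variable {H : Type} [NormedAddCommGroup H] [InnerProductSpace ℂ H] [CompleteSpace H]

theorem comm_prj (M : VonNeumannAlgebra H) {p : H →L[ℂ] H} (hp : AB M p) {a q : H →L[ℂ] H}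
    (ha : a ∈ M) (hpa : p * a = a) (hap : a * p = a) (hq : q ∈ M) (hqp : IsPr q)
    (hpq : p * q = q) : a * q = q * a := by
  obtain ⟨c, hc, rfl⟩ := hp.2.2 q hq hqp hpq
  have h1 := hc.2.2 a ha
  calc a * (c * p) = (a * c) * p := by rw [mul_assoc]
    _ = c * (a * p) := by rw [← h1, mul_assoc]
    _ = c * (p * a) := by rw [hap, hpa]
    _ = c * p * a := by rw [mul_assoc]

theorem comm_pos (M : VonNeumannAlgebra H) {p : H →L[ℂ] H} (hp : AB M p) {a c : H →L[ℂ] H}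
    (ha : a ∈ M) (hpa : p * a = a) (hap : a * p = a) (hc : c ∈ M) (hcp : c * p = c) :
    Commute a (star c * c) := by
  have hst : p * star c = star c := by
    have := congrArg star hcp
    rwa [star_mul, hp.2.1.1] at this
  set b := star c * c with hb
  have hbM : b ∈ M := mul_mem (star_mem hc) hc
  have key : ∀ ε : ℝ, 0 < ε → ‖a * b - b * a‖ ≤ 2 * ‖a‖ * ε := by
    intro ε hε
    obtain ⟨n, e, l, he, hn⟩ := prove6_step M.toStarSubalgebra (wst H M) ⟨b, hbM⟩ ⟨p, hp.1⟩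
      ⟨⟨c, hc⟩, Subtype.ext rfl⟩ ⟨Subtype.ext hp.2.1.1, Subtype.ext hp.2.1.2⟩
      (Subtype.ext (by
        show p * (star c * c) = star c * c
        rw [← mul_assoc, hst])) ε hε
    set S : M.toStarSubalgebra := ∑ i, (l i : ℂ) • e i with hS
    have h1 : ‖b - (S : H →L[ℂ] H)‖ ≤ ε := hn
    have h2 : a * (S : H →L[ℂ] H) = (S : H →L[ℂ] H) * a := by
      rw [hS, AddSubmonoidClass.coe_finsetSum, Finset.mul_sum, Finset.sum_mul]
      refine sum_congr rfl fun i _ => ?_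
      have h3 := comm_prj M hp ha hpa hap (e i).2
        ⟨congrArg Subtype.val (he i).2.1.1, congrArg Subtype.val (he i).2.1.2⟩
        (congrArg Subtype.val (he i).2.2)
      show a * ((l i : ℂ) • (e i : H →L[ℂ] H)) = ((l i : ℂ) • (e i : H →L[ℂ] H)) * a
      rw [mul_smul_comm, smul_mul_assoc, h3]
    have h4 : a * b - b * a = a * (b - S) - (b - S) * a := by
      rw [mul_sub, sub_mul, h2]; abel
    rw [h4]
    calc ‖a * (b - S) - (b - S) * a‖ ≤ ‖a * (b - S)‖ + ‖(b - S) * a‖ := norm_sub_le _ _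
      _ ≤ ‖a‖ * ε + ε * ‖a‖ := by
          refine add_le_add ((norm_mul_le _ _).trans ?_) ((norm_mul_le _ _).trans ?_)
          · exact mul_le_mul_of_nonneg_left h1 (norm_nonneg _)
          · exact mul_le_mul_of_nonneg_right h1 (norm_nonneg _)
      _ = 2 * ‖a‖ * ε := by ring
  have h0 : ‖a * b - b * a‖ ≤ 0 := by
    refine le_of_forall_pos_le_add fun δ hδ => ?_
    have h1 := key (δ / (2 * ‖a‖ + 1)) (by positivity)
    refine h1.trans ?_
    rw [zero_add, mul_div_assoc', div_le_iff₀ (by positivity)]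
    nlinarith [norm_nonneg a]
  exact sub_eq_zero.1 (norm_le_zero_iff.1 h0)

theorem comm (M : VonNeumannAlgebra H) {p : H →L[ℂ] H} (hp : AB M p) {a b : H →L[ℂ] H}
    (ha : a ∈ M) (hpa : p * a = a) (hap : a * p = a) (hb : b ∈ M) (hpb : p * b = b)
    (hbp : b * p = b) : a * b = b * a := by
  have hpM := hp.1
  have hps := hp.2.1.1
  have hpp := hp.2.1.2
  have hsm : ∀ (c : ℂ) (x : H →L[ℂ] H), x ∈ M → c • x ∈ M := fun c x hx =>
    M.toStarSubalgebra.smul_mem hx c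
  have h : ∀ w : ℂ, Commute a (star (b + w • p) * (b + w • p)) := by
    intro w
    apply comm_pos M hp ha hpa hap (add_mem hb (hsm w p hpM))
    rw [add_mul, hbp, smul_mul_assoc, hpp]
  have hst : star b * p = star b := by
    have := congrArg star hpb
    rwa [star_mul, hps] at this
  have e : ∀ w : ℂ, star (b + w • p) * (b + w • p) =
      star b * b + w • star b + conj w • b + (conj w * w) • p := by
    intro w
    rw [star_add, star_smul, hps, add_mul, mul_add, mul_add, mul_smul_comm, hst,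
      smul_mul_assoc, hpb, smul_mul_smul_comm, hpp]
    simp only [RCLike.star_def]
    abel
  have h4 : (4 : ℂ) • b = star (b + (1 : ℂ) • p) * (b + (1 : ℂ) • p) +
      Complex.I • (star (b + Complex.I • p) * (b + Complex.I • p)) -
      star (b + (-1 : ℂ) • p) * (b + (-1 : ℂ) • p) -
      Complex.I • (star (b + (-Complex.I) • p) * (b + (-Complex.I) • p)) := by
    rw [e, e, e, e]
    simp only [map_neg, map_one, Complex.conj_I]
    match_scalars <;> ring_nf <;> simp only [Complex.I_sq] <;> ring_nf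
  have h5 : Commute a ((4 : ℂ) • b) := by
    rw [h4]
    exact (((h 1).add_right ((h Complex.I).smul_right _)).sub_right (h (-1))).sub_right
      ((h (-Complex.I)).smul_right _)
  have h6 : b = (4 : ℂ)⁻¹ • ((4 : ℂ) • b) := by rw [smul_smul]; norm_num
  rw [h6]
  exact (h5.smul_right _).eq


/-! ### norm estimates -/

theorem star_ap (a : H →L[ℂ] H) (x y : H) : ⟪star a x, y⟫_ℂ = ⟪x, a y⟫_ℂ := by
  rw [ContinuousLinearMap.star_eq_adjoint, ContinuousLinearMap.adjoint_inner_left]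

theorem sum_le_colN {ι : Type} [Fintype ι] (a : ι → (H →L[ℂ] H)) (x : H) :
    ∑ i, ‖a i x‖ ^ 2 ≤ colN a * ‖x‖ ^ 2 := by
  have h1 : ((∑ i, ‖a i x‖ ^ 2 : ℝ) : ℂ) = ⟪x, (∑ i, star (a i) * a i) x⟫_ℂ := by
    rw [_root_.sum_apply, inner_sum, Complex.ofReal_sum]
    refine sum_congr rfl fun i _ => ?_
    have : ⟪x, (star (a i) * a i) x⟫_ℂ = ⟪a i x, a i x⟫_ℂ := by
      rw [mul_apply_eq_comp, ← star_ap (star (a i)), star_star]
    rw [this, inner_self_eq_norm_sq_to_K]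
    push_cast
    rfl
  have h2 : ‖((∑ i, ‖a i x‖ ^ 2 : ℝ) : ℂ)‖ ≤ ‖x‖ * (colN a * ‖x‖) := by
    rw [h1]
    refine (norm_inner_le_norm _ _).trans ?_
    exact mul_le_mul_of_nonneg_left (ContinuousLinearMap.le_opNorm _ _) (norm_nonneg _)
  rw [Complex.norm_real, Real.norm_of_nonneg (by positivity)] at h2
  calc _ ≤ ‖x‖ * (colN a * ‖x‖) := h2
    _ = _ := by ring

theorem colN_le {ι : Type} [Fintype ι] (a : ι → (H →L[ℂ] H)) {c : ℝ} (hc : 0 ≤ c)
    (h : ∀ x, ∑ i, ‖a i x‖ ^ 2 ≤ c * ‖x‖ ^ 2) : colN a ≤ c := by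
  refine ContinuousLinearMap.opNorm_le_bound _ hc fun x => ?_
  set y := (∑ i, star (a i) * a i) x with hy
  by_cases h0 : y = 0
  · rw [h0, norm_zero]; positivity
  have h1 : ‖y‖ ^ 2 ≤ (c * ‖x‖) * ‖y‖ := by
    have e1 : ⟪y, y⟫_ℂ = ∑ i, ⟪a i y, a i x⟫_ℂ := by
      nth_rw 2 [hy]
      rw [_root_.sum_apply, inner_sum]
      refine sum_congr rfl fun i _ => ?_
      rw [mul_apply_eq_comp, ← star_ap (star (a i)), star_star]
    have e2 : ‖⟪y, y⟫_ℂ‖ ≤ ∑ i, ‖a i y‖ * ‖a i x‖ := by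
      rw [e1]
      refine (norm_sum_le _ _).trans (sum_le_sum fun i _ => norm_inner_le_norm _ _)
    have e3 : ‖⟪y, y⟫_ℂ‖ = ‖y‖ ^ 2 := by
      rw [inner_self_eq_norm_sq_to_K]
      simp
    rw [e3] at e2
    have e4 : ∑ i, ‖a i y‖ * ‖a i x‖ ≤ √(∑ i, ‖a i y‖ ^ 2) * √(∑ i, ‖a i x‖ ^ 2) :=
      Real.sum_mul_le_sqrt_mul_sqrt _ _ _
    have e5 : √(∑ i, ‖a i y‖ ^ 2) ≤ √c * ‖y‖ := by
      rw [← Real.sqrt_sq (norm_nonneg y), ← Real.sqrt_mul hc]
      exact Real.sqrt_le_sqrt (h y)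
    have e6 : √(∑ i, ‖a i x‖ ^ 2) ≤ √c * ‖x‖ := by
      rw [← Real.sqrt_sq (norm_nonneg x), ← Real.sqrt_mul hc]
      exact Real.sqrt_le_sqrt (h x)
    calc ‖y‖ ^ 2 ≤ _ := e2
      _ ≤ _ := e4
      _ ≤ (√c * ‖y‖) * (√c * ‖x‖) := by gcongr
      _ = (√c * √c) * ‖x‖ * ‖y‖ := by ring
      _ = _ := by rw [Real.mul_self_sqrt hc]
  have h2 : 0 < ‖y‖ := norm_pos_iff.2 h0
  nlinarith

/-- norm of a sum of vectors in orthogonal ranges -/
theorem orth_sum {k : ℕ} {f : Fin k → Fin k → (H →L[ℂ] H)} (hf : MU f) (o : Fin k)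
    (η : Fin k → H) (hη : ∀ i, f o o (η i) = η i) :
    ‖∑ i, f i o (η i)‖ ^ 2 = ∑ i, ‖η i‖ ^ 2 := by
  have h1 : ((‖∑ i, f i o (η i)‖ ^ 2 : ℝ) : ℂ) = ((∑ i, ‖η i‖ ^ 2 : ℝ) : ℂ) := by
    have e1 : ((‖∑ i, f i o (η i)‖ ^ 2 : ℝ) : ℂ) =
        ⟪∑ i, f i o (η i), ∑ i, f i o (η i)⟫_ℂ := by
      rw [inner_self_eq_norm_sq_to_K]; push_cast; rfl
    rw [e1, sum_inner, Complex.ofReal_sum]
    refine sum_congr rfl fun i _ => ?_
    rw [inner_sum, sum_eq_single i]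
    · have e2 : ⟪f i o (η i), f i o (η i)⟫_ℂ = ⟪η i, η i⟫_ℂ := by
        rw [← star_ap, hf.adj]
        have : f o i (f i o (η i)) = (f o i * f i o) (η i) := rfl
        rw [this, hf.mul, if_pos rfl, hη]
      rw [e2, inner_self_eq_norm_sq_to_K]; push_cast; rfl
    · intro j _ hj
      rw [← star_ap, hf.adj]
      have : f o j (f i o (η i)) = (f o j * f i o) (η i) := rfl
      rw [this, hf.mul, if_neg hj]
      simp
    · simp
  exact_mod_cast h1

theorem prj_ap_le {p : H →L[ℂ] H} (hp : IsPr p) (x : H) : ‖p x‖ ≤ ‖x‖ := by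
  have h1 : ‖p‖ ≤ 1 := W10.prj_norm (A := H →L[ℂ] H) hp
  calc ‖p x‖ ≤ ‖p‖ * ‖x‖ := ContinuousLinearMap.le_opNorm _ _
    _ ≤ 1 * ‖x‖ := mul_le_mul_of_nonneg_right h1 (norm_nonneg _)
    _ = _ := one_mul _

/-- norm of `∑ u i • f i o x` -/
theorem orth_smul {k : ℕ} {f : Fin k → Fin k → (H →L[ℂ] H)} (hf : MU f) (o : Fin k)
    (u : Fin k → ℂ) (x : H) :
    ‖∑ i, u i • f i o x‖ ^ 2 ≤ (∑ i, ‖u i‖ ^ 2) * ‖x‖ ^ 2 := by
  have hpr : IsPr (f o o) := ⟨hf.adj o o, by rw [hf.mul, if_pos rfl]⟩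
  have h1 : ∀ i, u i • f i o x = f i o (u i • f o o x) := by
    intro i
    rw [map_smul]
    have : f i o (f o o x) = (f i o * f o o) x := rfl
    rw [this, hf.mul, if_pos rfl]
  rw [sum_congr rfl fun i _ => h1 i, orth_sum hf o]
  · rw [sum_mul]
    refine sum_le_sum fun i _ => ?_
    rw [norm_smul, mul_pow]
    exact mul_le_mul_of_nonneg_left (pow_le_pow_left₀ (norm_nonneg _) (prj_ap_le hpr x) 2)
      (by positivity)
  · intro i
    rw [map_smul]
    have : f o o (f o o x) = (f o o * f o o) x := rfl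
    rw [this, hf.mul, if_pos rfl]

theorem bil_bound {k : ℕ} {f : Fin k → Fin k → (H →L[ℂ] H)} (hf : MU f) (o : Fin k)
    {ι : Type} [Fintype ι] (a : ι → (H →L[ℂ] H)) (u : ι × Fin k → ℂ) (v : Fin k → ℂ) :
    ‖∑ t : ι × Fin k, ∑ j, (u t * v j) • (f o t.2 * a t.1 * f j o)‖ ≤
      √(colN a) * √(∑ t, ‖u t‖ ^ 2) * √(∑ j, ‖v j‖ ^ 2) := by
  refine ContinuousLinearMap.opNorm_le_bound _ (by positivity) fun x => ?_
  set V : H := ∑ j, v j • f j o x with hV
  set w : H := (∑ t : ι × Fin k, ∑ j, (u t * v j) • (f o t.2 * a t.1 * f j o)) x with hw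
  have hw' : w = ∑ s, ∑ i, u (s, i) • f o i (a s V) := by
    rw [hw, _root_.sum_apply, Fintype.sum_prod_type]
    refine sum_congr rfl fun s _ => sum_congr rfl fun i _ => ?_
    rw [_root_.sum_apply, hV, map_sum, map_sum, smul_sum]
    refine sum_congr rfl fun j _ => ?_
    rw [map_smul, map_smul, smul_smul]
    rfl
  by_cases h0 : w = 0
  · rw [h0, norm_zero]; positivity
  have hwp : 0 < ‖w‖ := norm_pos_iff.2 h0
  set W : ι → H := fun s => ∑ i, conj (u (s, i)) • f i o w with hW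
  have e1 : ⟪w, w⟫_ℂ = ∑ s, ⟪W s, a s V⟫_ℂ := by
    nth_rw 2 [hw']
    rw [inner_sum]
    refine sum_congr rfl fun s _ => ?_
    rw [hW, inner_sum, sum_inner]
    refine sum_congr rfl fun i _ => ?_
    rw [inner_smul_left, inner_smul_right, Complex.conj_conj]
    congr 1
    rw [← star_ap, hf.adj]
  have e2 : ‖w‖ ^ 2 ≤ ∑ s, ‖W s‖ * ‖a s V‖ := by
    have : ‖⟪w, w⟫_ℂ‖ = ‖w‖ ^ 2 := by rw [inner_self_eq_norm_sq_to_K]; simp
    rw [← this, e1]
    exact (norm_sum_le _ _).trans (sum_le_sum fun i _ => norm_inner_le_norm _ _)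
  have e3 : ∑ s, ‖W s‖ * ‖a s V‖ ≤ √(∑ s, ‖W s‖ ^ 2) * √(∑ s, ‖a s V‖ ^ 2) :=
    Real.sum_mul_le_sqrt_mul_sqrt _ _ _
  have e4 : √(∑ s, ‖W s‖ ^ 2) ≤ √(∑ t, ‖u t‖ ^ 2) * ‖w‖ := by
    rw [← Real.sqrt_sq (norm_nonneg w), ← Real.sqrt_mul (by positivity)]
    apply Real.sqrt_le_sqrt
    rw [Fintype.sum_prod_type, sum_mul]
    refine sum_le_sum fun s _ => ?_
    refine (orth_smul hf o _ w).trans (le_of_eq ?_)
    simp
  have e5 : √(∑ s, ‖a s V‖ ^ 2) ≤ √(colN a) * (√(∑ j, ‖v j‖ ^ 2) * ‖x‖) := by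
    have e6 : ∑ s, ‖a s V‖ ^ 2 ≤ colN a * ((∑ j, ‖v j‖ ^ 2) * ‖x‖ ^ 2) :=
      (sum_le_colN a V).trans (mul_le_mul_of_nonneg_left (orth_smul hf o v x) (norm_nonneg _))
    refine (Real.sqrt_le_sqrt e6).trans (le_of_eq ?_)
    have e9 : 0 ≤ colN a := norm_nonneg _
    rw [Real.sqrt_mul e9, Real.sqrt_mul (by positivity), Real.sqrt_sq (norm_nonneg x)]
  have e7 : ‖w‖ ^ 2 ≤ (√(∑ t, ‖u t‖ ^ 2) * ‖w‖) * (√(colN a) * (√(∑ j, ‖v j‖ ^ 2) * ‖x‖)) :=
    e2.trans (e3.trans (mul_le_mul e4 e5 (Real.sqrt_nonneg _) (by positivity)))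
  have e8 : ‖w‖ * ‖w‖ ≤ (√(colN a) * √(∑ t, ‖u t‖ ^ 2) * √(∑ j, ‖v j‖ ^ 2) * ‖x‖) * ‖w‖ := by
    calc ‖w‖ * ‖w‖ = ‖w‖ ^ 2 := by ring
      _ ≤ _ := e7
      _ = _ := by ring
  exact le_of_mul_le_mul_right e8 hwp

theorem isClosed_corner (M : VonNeumannAlgebra H) (p : H →L[ℂ] H) :
    IsClosed {a : H →L[ℂ] H | a ∈ M ∧ p * a = a ∧ a * p = a} := by
  have h1 : IsClosed {a : H →L[ℂ] H | a ∈ M} := vn_isClosed M
  have h2 : IsClosed {a : H →L[ℂ] H | p * a = a} :=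
    isClosed_eq (continuous_const.mul continuous_id) continuous_id
  have h3 : IsClosed {a : H →L[ℂ] H | a * p = a} :=
    isClosed_eq (continuous_id.mul continuous_const) continuous_id
  exact h1.inter (h2.inter h3)

theorem col_bound (h2 : R_ab) (M : VonNeumannAlgebra H) {z : H →L[ℂ] H} (hz : IsCP M z)
    {k : ℕ} {f : Fin k → Fin k → (H →L[ℂ] H)} (hfM : ∀ i j, f i j ∈ M) (hf : MU f)
    (hfz : ∑ i, f i i = z) (hAB : ∀ i, AB M (f i i)) (o : Fin k) {C : ℝ} (hC : 0 ≤ C)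
    {Q : (H →L[ℂ] H) →ₗ[ℂ] (H →L[ℂ] H)} (hQ : ModP M z C f Q) {ι : Type} [Fintype ι]
    (a : ι → (H →L[ℂ] H)) : colN (fun i => Q (a i)) ≤ C ^ 2 * colN a := by
  obtain ⟨hQn, hQM, hQid, hQm⟩ := hQ
  have hpr : IsPr (f o o) := ⟨hf.adj o o, by rw [hf.mul, if_pos rfl]⟩
  have hpn : ‖f o o‖ ≤ 1 := W10.prj_norm (A := H →L[ℂ] H) hpr
  have hsm : ∀ (c : ℂ) (x : H →L[ℂ] H), x ∈ M → c • x ∈ M := fun c x hx =>
    M.toStarSubalgebra.smul_mem hx c
  let Q₀ : (H →L[ℂ] H) →ₗ[ℂ] (H →L[ℂ] H) :=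
    { toFun := fun x => f o o * Q x * f o o
      map_add' := fun x y => by rw [map_add, mul_add, add_mul]
      map_smul' := fun c x => by
        rw [map_smul, mul_smul_comm, smul_mul_assoc]; rfl }
  have hQ₀ : ∀ x, Q₀ x = f o o * Q x * f o o := fun x => rfl
  have hQ₀n : ∀ x, ‖Q₀ x‖ ≤ C * ‖x‖ := by
    intro x
    rw [hQ₀]
    calc ‖f o o * Q x * f o o‖ ≤ ‖f o o * Q x‖ * ‖f o o‖ := norm_mul_le _ _
      _ ≤ (‖f o o‖ * ‖Q x‖) * ‖f o o‖ := by gcongr; exact norm_mul_le _ _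
      _ ≤ (1 * ‖Q x‖) * 1 := by gcongr
      _ = ‖Q x‖ := by ring
      _ ≤ _ := hQn x
  have hbi := h2 H {a : H →L[ℂ] H | a ∈ M ∧ f o o * a = a ∧ a * f o o = a} (f o o) hpr
    (isClosed_corner M _) ⟨hfM o o, hpr.2, hpr.2⟩
    (by
      rintro a ⟨ha1, ha2, ha3⟩ b ⟨hb1, hb2, hb3⟩
      refine ⟨⟨add_mem ha1 hb1, by rw [mul_add, ha2, hb2], by rw [add_mul, ha3, hb3]⟩,
        ⟨mul_mem ha1 hb1, by rw [← mul_assoc, ha2], by rw [mul_assoc, hb3]⟩,
        comm M (hAB o) ha1 ha2 ha3 hb1 hb2 hb3, star_mem ha1, ?_, ?_⟩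
      · have := congrArg star ha3
        rwa [star_mul, hpr.1] at this
      · have := congrArg star ha2
        rwa [star_mul, hpr.1] at this)
    (by
      rintro a ⟨ha1, ha2, ha3⟩ c
      exact ⟨hsm c a ha1, by rw [mul_smul_comm, ha2], by rw [smul_mul_assoc, ha3]⟩)
    (fun a ha => ha.2.1) Q₀ C hC hQ₀n
    (fun x => ⟨mul_mem (mul_mem (hfM o o) (hQM x).1) (hfM o o), by
      rw [hQ₀, ← mul_assoc, ← mul_assoc, hpr.2], by rw [hQ₀, mul_assoc, hpr.2]⟩)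
    (ι × Fin k) (Fin k) (fun t j => f o t.2 * a t.1 * f j o) (√(colN a))
    (fun u v => bil_bound hf o a u v)
  apply colN_le _ (mul_nonneg (sq_nonneg C) (norm_nonneg _))
  intro ξ
  have h3 := hbi (fun j => f o j ξ)
  have h4 : ∑ j, ‖f o j ξ‖ ^ 2 ≤ ‖ξ‖ ^ 2 := by
    have e1 : ((∑ j, ‖f o j ξ‖ ^ 2 : ℝ) : ℂ) = ⟪ξ, z ξ⟫_ℂ := by
      rw [← hfz, _root_.sum_apply, inner_sum, Complex.ofReal_sum]
      refine sum_congr rfl fun j _ => ?_
      have e2 : ⟪ξ, f j j ξ⟫_ℂ = ⟪f o j ξ, f o j ξ⟫_ℂ := by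
        have e4 : f j j ξ = f j o (f o j ξ) := by
          have : f j o (f o j ξ) = (f j o * f o j) ξ := rfl
          rw [this, hf.mul, if_pos rfl]
        rw [e4, ← star_ap, hf.adj]
      rw [e2, inner_self_eq_norm_sq_to_K]
      push_cast
      rfl
    have e3 : ‖((∑ j, ‖f o j ξ‖ ^ 2 : ℝ) : ℂ)‖ ≤ ‖ξ‖ * ‖ξ‖ := by
      rw [e1]
      exact (norm_inner_le_norm _ _).trans
        (mul_le_mul_of_nonneg_left (prj_ap_le hz.1 ξ) (norm_nonneg _))
    rw [Complex.norm_real, Real.norm_of_nonneg (by positivity)] at e3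
    linarith [sq (‖ξ‖)]
  have h5 : ∀ s, Q (a s) ξ = ∑ i, f i o (∑ j, Q₀ (f o i * a s * f j o) (f o j ξ)) := by
    intro s
    have e1 : Q (a s) = ∑ i, ∑ j, f i o * (f o i * Q (a s) * f j o) * f o j := by
      have e2 : Q (a s) = z * Q (a s) * z := by
        rw [(hQM (a s)).2, ← hz.2.2 _ (hQM (a s)).1, (hQM (a s)).2]
      nth_rw 1 [e2]
      rw [← hfz, sum_mul, sum_mul_sum]
      refine sum_congr rfl fun i _ => sum_congr rfl fun j _ => ?_
      have e3 : f i i = f i o * f o i := by rw [hf.mul, if_pos rfl]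
      have e4 : f j j = f j o * f o j := by rw [hf.mul, if_pos rfl]
      rw [e3, e4]
      simp only [mul_assoc]
    have e5 : ∀ i j, Q₀ (f o i * a s * f j o) = f o i * Q (a s) * f j o := by
      intro i j
      have e6 : f o o * f o i = f o i := by rw [hf.mul, if_pos rfl]
      have e7 : f j o * f o o = f j o := by rw [hf.mul, if_pos rfl]
      rw [hQ₀, (hQm j o _).2, (hQm o i _).1, ← mul_assoc, ← mul_assoc, e6, mul_assoc, e7]
    nth_rw 1 [e1]
    rw [_root_.sum_apply]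
    refine sum_congr rfl fun i _ => ?_
    rw [_root_.sum_apply, map_sum]
    refine sum_congr rfl fun j _ => ?_
    rw [e5]
    rfl
  have h6 : ∀ s, ‖Q (a s) ξ‖ ^ 2 =
      ∑ i, ‖∑ j, Q₀ (f o i * a s * f j o) (f o j ξ)‖ ^ 2 := by
    intro s
    rw [h5 s]
    apply orth_sum hf o
    intro i
    rw [map_sum]
    refine sum_congr rfl fun j _ => ?_
    rw [hQ₀]
    have : ∀ (x y : H →L[ℂ] H) (v : H), x (y v) = (x * y) v := fun _ _ _ => rfl
    rw [this, ← mul_assoc, ← mul_assoc, hpr.2]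
  have h7 : ∑ s, ‖Q (a s) ξ‖ ^ 2 =
      ∑ t : ι × Fin k, ‖∑ j, Q₀ (f o t.2 * a t.1 * f j o) (f o j ξ)‖ ^ 2 := by
    rw [Fintype.sum_prod_type]
    exact sum_congr rfl fun s _ => h6 s
  have h8 : 0 ≤ colN a := norm_nonneg _
  calc ∑ s, ‖Q (a s) ξ‖ ^ 2 = _ := h7
    _ ≤ (C * √(colN a)) ^ 2 * ∑ j, ‖f o j ξ‖ ^ 2 := h3
    _ ≤ (C * √(colN a)) ^ 2 * ‖ξ‖ ^ 2 := mul_le_mul_of_nonneg_left h4 (sq_nonneg _)
    _ = C ^ 2 * colN a * ‖ξ‖ ^ 2 := by rw [mul_pow, Real.sq_sqrt h8]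

theorem modP_star {M : VonNeumannAlgebra H} {z : H →L[ℂ] H} (hz : IsCP M z) {C : ℝ} {k : ℕ}
    {f : Fin k → Fin k → (H →L[ℂ] H)} (hf : MU f)
    {Q : (H →L[ℂ] H) →ₗ[ℂ] (H →L[ℂ] H)} (hQ : ModP M z C f Q) :
    ∃ Q' : (H →L[ℂ] H) →ₗ[ℂ] (H →L[ℂ] H), ModP M z C f Q' ∧ ∀ x, Q' x = star (Q (star x)) := by
  obtain ⟨hQn, hQM, hQid, hQm⟩ := hQ
  refine ⟨{ toFun := fun x => star (Q (star x))
            map_add' := fun x y => by rw [star_add, map_add, star_add]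
            map_smul' := fun c x => by
              rw [star_smul, map_smul, star_smul, star_star]; rfl }, ⟨?_, ?_, ?_, ?_⟩,
    fun x => rfl⟩
  · intro x
    show ‖star (Q (star x))‖ ≤ _
    rw [norm_star]
    refine (hQn _).trans ?_
    rw [norm_star]
  · intro x
    show star (Q (star x)) ∈ M ∧ z * star (Q (star x)) = star (Q (star x))
    refine ⟨star_mem (hQM _).1, ?_⟩
    have h1 : Q (star x) * z = Q (star x) := by
      rw [← hz.2.2 _ (hQM (star x)).1, (hQM (star x)).2]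
    have := congrArg star h1
    rwa [star_mul, hz.1.1] at this
  · intro m hm hzm
    show star (Q (star m)) = m
    rw [hQid (star m) (star_mem hm), star_star]
    rw [hz.2.2 _ (star_mem hm)]
    have := congrArg star hzm
    rwa [star_mul, hz.1.1] at this
  · intro i j x
    constructor
    · show star (Q (star (f i j * x))) = f i j * star (Q (star x))
      rw [star_mul, hf.adj, (hQm j i _).2, star_mul, hf.adj]
    · show star (Q (star (x * f i j))) = star (Q (star x)) * f i j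
      rw [star_mul, hf.adj, (hQm j i _).1, star_mul, hf.adj]

theorem rowN_star {ι : Type} [Fintype ι] (a : ι → (H →L[ℂ] H)) :
    colN (fun i => star (a i)) = rowN a := by
  unfold colN rowN
  simp only [star_star]

end

end ROneAux

open ROneAux in
theorem prove_R_one (h1 : R_mod) (h2 : R_ab) : R_one := by
  intro H _ _ _ M P C hP z hz hT
  obtain ⟨k, f, hfM, hf, hfz, hAB⟩ := hT
  rcases Nat.eq_zero_or_pos k with hk | hk
  · subst hk
    have hz0 : z = 0 := by rw [← hfz]; simp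
    refine ⟨0, le_rfl, fun ε hε => ⟨0, ?_, ?_, ?_⟩⟩
    · intro x
      exact ⟨zero_mem M, by simp⟩
    · intro m _ hm
      rw [← hm, hz0]; simp
    · intro ι _ a
      simp [colN, rowN]
  · have hzf : ∀ i j, z * f i j = f i j := by
      intro i j
      rw [← hfz, sum_mul, sum_eq_single i]
      · rw [hf.mul, if_pos rfl]
      · intro l _ hl
        rw [hf.mul, if_neg hl]
      · simp
    obtain ⟨Q, hQ⟩ := h1 H M P C hP z hz k f hfM hf hzf
    obtain ⟨Q', hQ', hQQ'⟩ := modP_star hz hf hQ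
    refine ⟨C ^ 2, sq_nonneg C, fun ε hε => ⟨Q, hQ.2.1, hQ.2.2.1, fun ι _ a => ⟨?_, ?_⟩⟩⟩
    · refine (col_bound h2 M hz hfM hf hfz hAB ⟨0, hk⟩ hP.1 hQ a).trans ?_
      refine mul_le_mul_of_nonneg_left ?_ (sq_nonneg C)
      have : 0 ≤ ε * rowN a := mul_nonneg hε.le (norm_nonneg _)
      linarith
    · have h3 := col_bound h2 M hz hfM hf hfz hAB ⟨0, hk⟩ hP.1 hQ' (fun i => star (a i))
      have h4 : (fun i => Q' (star (a i))) = fun i => star (Q (a i)) := by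
        funext i
        rw [hQQ', star_star]
      rw [h4, rowN_star, rowN_star a] at h3
      refine h3.trans ?_
      refine mul_le_mul_of_nonneg_left ?_ (sq_nonneg C)
      have : 0 ≤ ε * colN a := mul_nonneg hε.le (norm_nonneg _)
      linarith

end H68R2.BP
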